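import Mathlib

/-!
# The function `J x = x √(1 - log x)` on `[0,1]`
-/

set_option autoImplicit false

namespace Pool.Agent.H38K1

open Set

/-- `J x = x √(1 - log x)` for `x ≥ 0` -/
noncomputable def J (x : ℝ) : ℝ := √(x * (x + Real.negMulLog x))

theorem continuous_J : Continuous J := by
  unfold J
  exact (continuous_id.mul (continuous_id.add Real.continuous_negMulLog)).sqrt

theorem J_nonneg (x : ℝ) : 0 ≤ J x := Real.sqrt_nonneg _

theorem J_eq (x : ℝ) (h0 : 0 ≤ x) : J x = x * √(1 - Real.log x) := by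
  unfold J Real.negMulLog
  have : x * (x + -x * Real.log x) = x ^ 2 * (1 - Real.log x) := by ring
  rw [this, Real.sqrt_mul (sq_nonneg x), Real.sqrt_sq h0]

theorem J_zero : J 0 = 0 := by simp [J]

theorem J_one : J 1 = 1 := by simp [J]

theorem one_le_sub_log (x : ℝ) (h0 : 0 ≤ x) (h1 : x ≤ 1) : 1 ≤ 1 - Real.log x := by
  have := Real.log_nonpos h0 h1
  linarith

theorem J_sq (x : ℝ) (h0 : 0 ≤ x) (h1 : x ≤ 1) : J x ^ 2 = x ^ 2 * (1 - Real.log x) := by
  rw [J_eq x h0, mul_pow, Real.sq_sqrt]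
  linarith [one_le_sub_log x h0 h1]

theorem J_le_two (x : ℝ) (h0 : 0 ≤ x) (h1 : x ≤ 1) : J x ≤ 1 := by
  have h := J_sq x h0 h1
  have h2 : x ^ 2 * (1 - Real.log x) ≤ 1 := by
    rcases h0.eq_or_lt with rfl | hx
    · simp
    · have h3 : -Real.log x ≤ 1 / x - 1 := by
        have := Real.log_le_sub_one_of_pos (show 0 < x⁻¹ by positivity)
        rw [Real.log_inv] at this
        rw [one_div]
        exact this
      have h4 : x ^ 2 * (1 - Real.log x) ≤ x ^ 2 * (1 / x) := by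
        apply mul_le_mul_of_nonneg_left _ (sq_nonneg x)
        linarith
      have h5 : x ^ 2 * (1 / x) = x := by field_simp
      linarith
  by_contra hc
  push Not at hc
  nlinarith [J_nonneg x]

/-- `J` is increasing on `[0,1]` -/
theorem J_mono (a b : ℝ) (h0 : 0 ≤ a) (hab : a ≤ b) (h1 : b ≤ 1) : J a ≤ J b := by
  rcases h0.eq_or_lt with rfl | ha
  · rw [J_zero]; exact J_nonneg b
  have hb : 0 < b := lt_of_lt_of_le ha hab
  apply le_of_sq_le_sq _ (J_nonneg b)
  rw [J_sq a h0 (hab.trans h1), J_sq b hb.le h1]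
  -- log a = log b + log (a/b)
  have hlog : Real.log (a / b) = Real.log a - Real.log b := Real.log_div ha.ne' hb.ne'
  have h2 : -Real.log (a / b) ≤ b / a - 1 := by
    have := Real.log_le_sub_one_of_pos (show 0 < (a / b)⁻¹ by positivity)
    rw [Real.log_inv, inv_div] at this
    exact this
  have h3 : -Real.log a ≤ -Real.log b + (b / a - 1) := by linarith
  have h4 : a ^ 2 * (1 - Real.log a) ≤ a ^ 2 * (1 - Real.log b + (b / a - 1)) := by
    apply mul_le_mul_of_nonneg_left _ (sq_nonneg a)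
    linarith
  have h5 : a ^ 2 * (1 - Real.log b + (b / a - 1)) = a ^ 2 * (- Real.log b) + a * b := by
    field_simp
    ring
  have h6 : a ^ 2 * (- Real.log b) ≤ b ^ 2 * (- Real.log b) := by
    apply mul_le_mul_of_nonneg_right
    · exact pow_le_pow_left₀ h0 hab 2
    · have := Real.log_nonpos hb.le h1; linarith
  have h7 : a * b ≤ b ^ 2 := by nlinarith
  nlinarith

theorem J_lip (a b : ℝ) (h0 : 0 ≤ a) (hab : a ≤ b) (h1 : b ≤ 1) :
    (J b - J a) ^ 2 ≤ (1 - Real.log b) * (b - a) ^ 2 := by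
  rcases h0.eq_or_lt with rfl | ha
  · rw [J_zero]
    have hb : 0 ≤ b := hab
    simp only [sub_zero]
    rw [J_sq b hb h1]
    linarith
  have hb : 0 < b := lt_of_lt_of_le ha hab
  have hm := J_mono a b h0 hab h1
  have h2 : J b - J a ≤ (b - a) * √(1 - Real.log b) := by
    rw [J_eq a h0, J_eq b hb.le]
    have h3 : √(1 - Real.log b) ≤ √(1 - Real.log a) := by
      apply Real.sqrt_le_sqrt
      have := Real.log_le_log ha hab
      linarith
    have := mul_le_mul_of_nonneg_left h3 h0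
    linarith
  have h4 : (J b - J a) ^ 2 ≤ ((b - a) * √(1 - Real.log b)) ^ 2 :=
    pow_le_pow_left₀ (by linarith) h2 2
  rw [mul_pow, Real.sq_sqrt (by linarith [one_le_sub_log b hb.le h1])] at h4
  linarith

/-- the two point inequality -/
theorem two_pt (a b p q : ℝ) (ha : 0 < a) (hab : a ≤ b) (h1 : b ≤ 1) (hp : 0 ≤ p) (hq : 0 ≤ q)
    (hpq : p + q = 1) :
    J (p * a + q * b) ^ 2 ≤ (p * J a + q * J b) ^ 2 + (b - a) ^ 2 := by
  have hb : 0 < b := lt_of_lt_of_le ha hab
  have hp1 : p ≤ 1 := by linarith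
  have hq' : q = 1 - p := by linarith
  subst hq'
  -- scaling
  obtain ⟨α, hα⟩ : ∃ α, α = a / b := ⟨_, rfl⟩
  have haα : a = b * α := by rw [hα]; field_simp
  have hα0 : 0 < α := by rw [hα]; positivity
  have hα1 : α ≤ 1 := by rw [hα, div_le_one hb]; exact hab
  obtain ⟨ν, hν⟩ : ∃ ν, ν = 1 - p * (1 - α) := ⟨_, rfl⟩
  have hν0 : 0 < ν := by
    rw [hν]
    nlinarith
  have hν1 : ν ≤ 1 := by
    rw [hν]
    have : 0 ≤ p * (1 - α) := mul_nonneg hp (by linarith)
    linarith
  have hv : p * a + (1 - p) * b = b * ν := by rw [haα, hν]; ring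
  have hlogν : Real.log (b * ν) = Real.log b + Real.log ν := Real.log_mul hb.ne' hν0.ne'
  have hloga : Real.log a = Real.log b + Real.log α := by
    rw [haα]; exact Real.log_mul hb.ne' hα0.ne'
  have hbν1 : b * ν ≤ 1 := by nlinarith
  have hlip := J_lip a b ha.le hab h1
  have hsqv := J_sq (b * ν) (by positivity) hbν1
  have hsqa := J_sq a ha.le (hab.trans h1)
  have hsqb := J_sq b hb.le h1
  rw [hv, hsqv, hlogν]
  have e1 : (p * J a + (1 - p) * J b) ^ 2 =
      p * J a ^ 2 + (1 - p) * J b ^ 2 - p * (1 - p) * (J b - J a) ^ 2 := by ring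
  rw [e1, hsqa, hsqb, hloga]
  have h2 : p * (1 - p) * (J b - J a) ^ 2 ≤ p * (1 - p) * ((1 - Real.log b) * (b - a) ^ 2) :=
    mul_le_mul_of_nonneg_left hlip (mul_nonneg hp hq)
  have hba : b - a = b * (1 - α) := by rw [haα]; ring
  -- logs
  have hl1 : -Real.log ν ≤ 1 / ν - 1 := by
    have := Real.log_le_sub_one_of_pos (show 0 < ν⁻¹ by positivity)
    rw [Real.log_inv] at this
    rw [one_div]
    exact this
  have hl2 : Real.log α ≤ α - 1 := Real.log_le_sub_one_of_pos hα0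
  have h3 : ν ^ 2 * (-Real.log ν) ≤ ν * (1 - ν) := by
    have h4 : ν ^ 2 * (-Real.log ν) ≤ ν ^ 2 * (1 / ν - 1) :=
      mul_le_mul_of_nonneg_left hl1 (sq_nonneg ν)
    have h5 : ν ^ 2 * (1 / ν - 1) = ν * (1 - ν) := by field_simp
    linarith
  have h6 : p * α ^ 2 * Real.log α ≤ p * α ^ 2 * (α - 1) :=
    mul_le_mul_of_nonneg_left hl2 (by positivity)
  have h7 : ν * (1 - ν) + p * α ^ 2 * (α - 1) ≤ (1 - α) ^ 2 := by
    have e2 : ν * (1 - ν) + p * α ^ 2 * (α - 1) = (1 - α) ^ 2 * (p * (1 + α - p)) := by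
      rw [hν]; ring
    rw [e2]
    have h8 : p * (1 + α - p) ≤ 1 := by nlinarith [sq_nonneg (1 - p)]
    have := mul_le_mul_of_nonneg_left h8 (sq_nonneg (1 - α))
    linarith
  have h9 : b ^ 2 * (ν ^ 2 * (-Real.log ν) + p * α ^ 2 * Real.log α) ≤ b ^ 2 * (1 - α) ^ 2 :=
    mul_le_mul_of_nonneg_left (by linarith) (sq_nonneg b)
  have e3 : p * (b * α) ^ 2 * (1 - (Real.log b + Real.log α)) + (1 - p) * (b ^ 2 * (1 - Real.log b))
      - p * (1 - p) * ((1 - Real.log b) * (b * (1 - α)) ^ 2) =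
      b ^ 2 * ν ^ 2 * (1 - Real.log b) - b ^ 2 * (p * α ^ 2 * Real.log α) := by
    rw [hν]; ring
  rw [hba] at h2 ⊢
  have e4 : p * (a ^ 2 * (1 - (Real.log b + Real.log α))) =
      p * (b * α) ^ 2 * (1 - (Real.log b + Real.log α)) := by rw [haα]; ring
  rw [e4]
  nlinarith

/-- concavity -/
theorem J_concave (a b p q : ℝ) (ha : 0 ≤ a) (hb : 0 ≤ b) (ha1 : a ≤ 1) (hb1 : b ≤ 1)
    (hp : 0 ≤ p) (hq : 0 ≤ q) (hpq : p + q = 1) :
    p * J a + q * J b ≤ J (p * a + q * b) := by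
  have hga : 0 ≤ a + Real.negMulLog a := by
    have := Real.negMulLog_nonneg ha ha1; linarith
  have hgb : 0 ≤ b + Real.negMulLog b := by
    have := Real.negMulLog_nonneg hb hb1; linarith
  have hconc := Real.concaveOn_negMulLog.2 (show a ∈ Ici (0:ℝ) from ha) (show b ∈ Ici (0:ℝ) from hb)
    hp hq hpq
  simp only [smul_eq_mul] at hconc
  have h1 : p * a + q * b + (p * Real.negMulLog a + q * Real.negMulLog b) ≤
      p * a + q * b + Real.negMulLog (p * a + q * b) := by linarith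
  have hm : 0 ≤ p * a + q * b := by positivity
  unfold J
  apply Real.le_sqrt_of_sq_le
  refine le_trans ?_ (mul_le_mul_of_nonneg_left h1 hm)
  generalize Real.negMulLog a = na at *
  generalize Real.negMulLog b = nb at *
  have hA := Real.sq_sqrt (mul_nonneg ha hga)
  have hB := Real.sq_sqrt (mul_nonneg hb hgb)
  have hAB : √(a * (a + na)) * √(b * (b + nb)) ≤ (a * (b + nb) + b * (a + na)) / 2 := by
    rw [← Real.sqrt_mul (mul_nonneg ha hga)]
    apply Real.sqrt_le_iff.2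
    have h3 : 0 ≤ a * (b + nb) := mul_nonneg ha hgb
    have h4 : 0 ≤ b * (a + na) := mul_nonneg hb hga
    constructor
    · linarith
    · nlinarith [sq_nonneg (a * (b + nb) - b * (a + na))]
  have hpq0 : 0 ≤ p * q := mul_nonneg hp hq
  have h5 := mul_le_mul_of_nonneg_left hAB hpq0
  have e : (p * √(a * (a + na)) + q * √(b * (b + nb))) ^ 2 =
      p ^ 2 * √(a * (a + na)) ^ 2 + q ^ 2 * √(b * (b + nb)) ^ 2 +
        2 * (p * q * (√(a * (a + na)) * √(b * (b + nb)))) := by ring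
  have e2 : (p * a + q * b) * (p * a + q * b + (p * na + q * nb)) =
      p ^ 2 * (a * (a + na)) + q ^ 2 * (b * (b + nb)) +
        2 * (p * q * ((a * (b + nb) + b * (a + na)) / 2)) := by ring
  rw [e, hA, hB, e2]
  linarith

end Pool.Agent.H38K1
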