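import Pool.Agent.Helper38K1.OneD
import Pool.Agent.Helper62K1.Defs

/-!
# The functional inequality for `J x = x √(1 - log x)` on the cube, and the lower bound for the
perimeter
-/

set_option autoImplicit false

namespace Pool.Agent.H38K1

open Set Filter Topology MeasureTheory
open Pool.Agent.H48R3.CP hiding J tensor oneD continuous_J J_nonneg J_zero J_one J_le_one main_ineq lower

theorem tensor (n : ℕ) : ∀ f : (Fin n → ℝ) → ℝ, ContDiff ℝ 1 f → (∀ x, 0 < f x) →
    (∀ x, f x < 1) → J (∫ x in Icc (0 : Fin n → ℝ) 1, f x) ≤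
      ∫ x in Icc (0 : Fin n → ℝ) 1, √(J (f x) ^ 2 + ∑ i, D f i x ^ 2) := by
  have hJc := continuous_J
  induction n with
  | zero =>
    intro f hf h0 h1
    have e0 : ∀ g : (Fin 0 → ℝ) → ℝ, ∫ x in Icc (0 : Fin 0 → ℝ) 1, g x = g 0 := by
      intro g
      have : ∀ x, g x = g 0 := fun x => by rw [Subsingleton.elim x 0]
      simp_rw [this]
      rw [setIntegral_const, Measure.real, vol_Icc]
      simp
    rw [e0, e0]
    apply Real.le_sqrt_of_sq_le
    simp
  | succ n ih =>
    intro f hf h0 h1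
    have hfc := hf.continuous
    have hDc := fun i => continuous_D f hf i
    have hcs := @continuous_cs n
    have hQc : IsCompact (Icc (0 : Fin n → ℝ) 1) := isCompact_Icc
    -- slices
    set F : ℝ → ℝ := fun t => ∫ x in Icc (0 : Fin n → ℝ) 1, f (cs t x) with hF
    set F' : ℝ → ℝ := fun t => ∫ x in Icc (0 : Fin n → ℝ) 1, D f 0 (cs t x) with hF'
    have hF'c : Continuous F' :=
      continuous_parametric_integral_of_continuous (f := fun t x => D f 0 (cs t x))
        ((hDc 0).comp hcs) hQc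
    have hcst : ∀ t, Continuous (fun x : Fin n → ℝ => cs t x) := fun t =>
      hcs.comp (Continuous.prodMk_right t)
    have hInt : ∀ (g : (Fin n → ℝ) → ℝ), Continuous g → IntegrableOn g (Icc (0 : Fin n → ℝ) 1) :=
      fun g hg => hg.continuousOn.integrableOn_compact hQc
    have hFd : ∀ t, HasDerivAt F (F' t) t := by
      intro t
      obtain ⟨C, hC⟩ := ((isCompact_closedBall t 1).prod hQc).exists_bound_of_continuousOn
        (f := fun p : ℝ × (Fin n → ℝ) => D f 0 (cs p.1 p.2)) ((hDc 0).comp hcs).continuousOn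
      refine (hasDerivAt_integral_of_dominated_loc_of_deriv_le (bound := fun _ => C)
        (s := Metric.closedBall t 1) (F := fun t x => f (cs t x))
        (F' := fun t x => D f 0 (cs t x)) (Metric.closedBall_mem_nhds t one_pos) ?_ ?_ ?_ ?_ ?_ ?_).2
      · exact Eventually.of_forall fun u => (hfc.comp (hcst u)).aestronglyMeasurable
      · exact hInt _ (hfc.comp (hcst t))
      · exact ((hDc 0).comp (hcst t)).aestronglyMeasurable
      · rw [ae_restrict_iff' measurableSet_Icc]
        exact Eventually.of_forall fun x hx u hu => hC (u, x) ⟨hu, hx⟩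
      · exact hInt _ continuous_const
      · exact Eventually.of_forall fun x u _ => hasDerivAt_cs f hf x u
    have hvol : (volume.restrict (Icc (0 : Fin n → ℝ) 1)) univ = 1 := by
      rw [Measure.restrict_apply_univ, vol_Icc]
    have hpos : ∀ g : (Fin n → ℝ) → ℝ, Continuous g → (∀ x, 0 < g x) →
        0 < ∫ x in Icc (0 : Fin n → ℝ) 1, g x := by
      intro g hg hg0
      rw [integral_pos_iff_support_of_nonneg (fun x => (hg0 x).le) (hInt g hg)]
      have : Function.support g = univ := by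
        ext x; simpa using (hg0 x).ne'
      rw [this, hvol]
      norm_num
    have hF0 : ∀ t, 0 < F t := fun t => hpos _ (hfc.comp (hcst t)) fun x => h0 _
    have hF1 : ∀ t, F t < 1 := by
      intro t
      have h2 := hpos (fun x => 1 - f (cs t x)) (continuous_const.sub (hfc.comp (hcst t)))
        (fun x => by linarith [h1 (cs t x)])
      rw [integral_sub (hInt _ continuous_const) (hInt (fun x => f (cs t x)) (hfc.comp (hcst t)))] at h2
      have h3 : (∫ x in Icc (0 : Fin n → ℝ) 1, (1:ℝ)) = 1 := by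
        rw [setIntegral_const, Measure.real, vol_Icc]; simp
      rw [h3] at h2
      show (∫ x in Icc (0 : Fin n → ℝ) 1, f (cs t x)) < 1
      linarith
    rw [fubini_cube f hfc]
    refine (oneD F F' hFd hF'c (fun t _ => hF0 t) (fun t _ => hF1 t)).trans ?_
    have hgc : Continuous fun x => √(J (f x) ^ 2 + ∑ i, D f i x ^ 2) := by
      fun_prop
    rw [fubini_cube _ hgc]
    apply intervalIntegral.integral_mono_on (by norm_num)
    · apply Continuous.intervalIntegrable
      have : Continuous F := continuous_iff_continuousAt.2 fun x => (hFd x).continuousAt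
      fun_prop
    · apply Continuous.intervalIntegrable
      exact continuous_parametric_integral_of_continuous
        (f := fun t x => √(J (f (cs t x)) ^ 2 + ∑ i, D f i (cs t x) ^ 2))
        (hgc.comp hcs) hQc
    intro t _
    -- the slice inequality
    have hih := ih (fun x => f (cs t x)) (contDiff_slice f hf t) (fun x => h0 _) (fun x => h1 _)
    simp only [D_slice f hf t] at hih
    set A : (Fin n → ℝ) → ℝ := fun x => √(J (f (cs t x)) ^ 2 + ∑ i : Fin n, D f i.succ (cs t x) ^ 2)
      with hA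
    set B : (Fin n → ℝ) → ℝ := fun x => |D f 0 (cs t x)| with hB
    have hct := hcst t
    have hAc : Continuous A := by
      show Continuous fun x => √(J (f (cs t x)) ^ 2 + ∑ i : Fin n, D f i.succ (cs t x) ^ 2)
      fun_prop
    have hBc : Continuous B := by
      show Continuous fun x => |D f 0 (cs t x)|
      fun_prop
    have hABe : ∀ x, √(A x ^ 2 + B x ^ 2) = √(J (f (cs t x)) ^ 2 + ∑ i, D f i (cs t x) ^ 2) := by
      intro x
      congr 1
      rw [hA, hB]
      simp only
      rw [Real.sq_sqrt (by positivity), sq_abs, Fin.sum_univ_succ]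
      ring
    have hmk := minkowski (volume.restrict (Icc (0 : Fin n → ℝ) 1)) A B (hInt A hAc) (hInt B hBc)
      (hInt _ (by fun_prop))
    simp only [hABe] at hmk
    refine le_trans ?_ hmk
    apply Real.sqrt_le_sqrt
    have hJ0 := J_nonneg (F t)
    have h5 : J (F t) ^ 2 ≤ (∫ x in Icc (0 : Fin n → ℝ) 1, A x) ^ 2 :=
      pow_le_pow_left₀ hJ0 hih 2
    have h6 : F' t ^ 2 ≤ (∫ x in Icc (0 : Fin n → ℝ) 1, B x) ^ 2 := by
      rw [← sq_abs]
      apply pow_le_pow_left₀ (abs_nonneg _)
      exact abs_integral_le_integral_abs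
    linarith

theorem main_ineq {d : ℕ} (E : Set (Fin d → ℝ)) (hE : MeasurableSet E) (hEU : E ⊆ U d) (δ : ℝ)
    (hδ : 0 < δ) (hδ2 : δ < 1 / 8) :
    (1 - 4 * δ) ^ d * (J (∫ x in Icc (0 : Fin d → ℝ) 1, fd E δ hδ x) -
        ∫ x in Icc (0 : Fin d → ℝ) 1, J (fd E δ hδ x)) ≤
      ∫ y in Icc (fun _ : Fin d => 2 * δ) (fun _ => 1 - 2 * δ),
          √(∑ i, D (conv (E.indicator (fun _ => (1:ℝ))) (eta d δ hδ)) i y ^ 2) := by
  have hl : 0 < 1 - 4 * δ := by linarith
  set g := conv (E.indicator (fun _ => (1:ℝ))) (eta d δ hδ) with hg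
  have hgd : ContDiff ℝ 1 g := contDiff_conv _ _ (int_ind E hE hEU).locallyIntegrable
    (eta_contDiff δ hδ) (eta_supp δ hδ)
  have hb := g_bounds E hE hEU δ hδ
  rw [← hg] at hb
  set f := fd E δ hδ with hf
  have hfe : ∀ x, f x = δ + (1 - 2 * δ) * g (T d δ x) := fun x => rfl
  have hTd : ContDiff ℝ 1 (T d δ) := by
    unfold T
    fun_prop
  have hfd : ContDiff ℝ 1 f := by
    have : f = fun x => δ + (1 - 2 * δ) * g (T d δ x) := rfl
    rw [this]
    exact contDiff_const.add (contDiff_const.mul (hgd.comp hTd))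
  have hf0 : ∀ x, 0 < f x := fun x => by
    rw [hfe]
    have := mul_nonneg (by linarith : 0 ≤ 1 - 2 * δ) (hb (T d δ x)).1
    linarith
  have hf1 : ∀ x, f x < 1 := fun x => by
    rw [hfe]
    have := mul_le_mul_of_nonneg_left (hb (T d δ x)).2 (by linarith : 0 ≤ 1 - 2 * δ)
    linarith
  have hD : ∀ i x, D f i x = (1 - 2 * δ) * ((1 - 4 * δ) * D g i (T d δ x)) := by
    intro i x
    have h1 : HasFDerivAt (T d δ) ((1 - 4 * δ) • ContinuousLinearMap.id ℝ (Fin d → ℝ)) x := by
      exact ((hasFDerivAt_id x).const_smul (1 - 4 * δ)).const_add _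
    have h2 : HasFDerivAt g (fderiv ℝ g (T d δ x)) (T d δ x) :=
      (hgd.differentiable (by norm_num) _).hasFDerivAt
    have h3 := ((h2.comp x h1).const_mul (1 - 2 * δ)).const_add δ
    have h4 : HasFDerivAt f _ x := h3
    unfold D
    rw [h4.fderiv]
    simp
  have ht := tensor d f hfd hf0 hf1
  have hfc := hfd.continuous
  have hJc := continuous_J
  have hDc : ∀ i, Continuous (D f i) := fun i => continuous_D f hfd i
  have hI : ∀ (w : (Fin d → ℝ) → ℝ), Continuous w → IntegrableOn w (Icc (0 : Fin d → ℝ) 1) :=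
    fun w hw => hw.continuousOn.integrableOn_compact isCompact_Icc
  have hle : ∫ x in Icc (0 : Fin d → ℝ) 1, √(J (f x) ^ 2 + ∑ i, D f i x ^ 2) ≤
      (∫ x in Icc (0 : Fin d → ℝ) 1, J (f x)) +
        ∫ x in Icc (0 : Fin d → ℝ) 1, √(∑ i, D f i x ^ 2) := by
    rw [← integral_add (hI (fun x => J (f x)) (by fun_prop)) (hI _ (by fun_prop))]
    apply integral_mono (hI _ (by fun_prop)) ((hI (fun x => J (f x)) (by fun_prop)).add (hI _ (by fun_prop)))
    intro x
    show √(J (f x) ^ 2 + ∑ i, D f i x ^ 2) ≤ J (f x) + √(∑ i, D f i x ^ 2)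
    have hJ0 := J_nonneg (f x)
    have hs0 : 0 ≤ ∑ i, D f i x ^ 2 := Finset.sum_nonneg fun i _ => sq_nonneg _
    rw [Real.sqrt_le_left (by positivity)]
    have := Real.sq_sqrt hs0
    have h5 : 0 ≤ J (f x) * √(∑ i, D f i x ^ 2) := by positivity
    nlinarith
  have hgrad : ∫ x in Icc (0 : Fin d → ℝ) 1, √(∑ i, D f i x ^ 2) =
      (1 - 2 * δ) * (1 - 4 * δ) * (((1 - 4 * δ) ^ d)⁻¹ *
        ∫ y in Icc (fun _ : Fin d => 2 * δ) (fun _ => 1 - 2 * δ), √(∑ i, D g i y ^ 2)) := by
    rw [← change_var (fun y => √(∑ i, D g i y ^ 2)) δ hδ hδ2, ← integral_const_mul]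
    congr 1
    funext x
    have : ∑ i, D f i x ^ 2 = ((1 - 2 * δ) * (1 - 4 * δ)) ^ 2 * ∑ i, D g i (T d δ x) ^ 2 := by
      rw [Finset.mul_sum]
      congr 1
      funext i
      rw [hD]; ring
    have hp : 0 ≤ (1 - 2 * δ) * (1 - 4 * δ) := mul_nonneg (by linarith) (by linarith)
    rw [this, Real.sqrt_mul (by positivity), Real.sqrt_sq hp]
  set I := ∫ y in Icc (fun _ : Fin d => 2 * δ) (fun _ => 1 - 2 * δ), √(∑ i, D g i y ^ 2) with hIdef
  have hI0 : 0 ≤ I := integral_nonneg fun x => Real.sqrt_nonneg _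
  have hpow : 0 < (1 - 4 * δ) ^ d := by positivity
  have h6 : (1 - 2 * δ) * (1 - 4 * δ) ≤ 1 := by nlinarith
  have h7 : (1 - 2 * δ) * (1 - 4 * δ) * (((1 - 4 * δ) ^ d)⁻¹ * I) ≤ ((1 - 4 * δ) ^ d)⁻¹ * I := by
    have : 0 ≤ ((1 - 4 * δ) ^ d)⁻¹ * I := by positivity
    nlinarith
  have h8 : J (∫ x in Icc (0 : Fin d → ℝ) 1, f x) - ∫ x in Icc (0 : Fin d → ℝ) 1, J (f x) ≤
      ((1 - 4 * δ) ^ d)⁻¹ * I := by linarith
  calc _ ≤ (1 - 4 * δ) ^ d * (((1 - 4 * δ) ^ d)⁻¹ * I) := mul_le_mul_of_nonneg_left h8 hpow.le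
    _ = I := by field_simp


open Pool.Agent.H62 (Adm dv PB Ach)

theorem lower {d : ℕ} (E : Set (Fin d → ℝ)) (hE : MeasurableSet E) (hEU : E ⊆ U d) (t C : ℝ)
    (ht : volume E = ENNReal.ofReal t) (ht0 : 0 ≤ t) (hC : PB E C) : J t - t ≤ C := by
  set u : (Fin d → ℝ) → ℝ := E.indicator (fun _ => (1:ℝ)) with hu
  set μ := (volume : Measure (Fin d → ℝ)).restrict (Icc (0 : Fin d → ℝ) 1) with hμ
  have : IsFiniteMeasure μ := ⟨by rw [hμ, Measure.restrict_apply_univ, vol_Icc]; exact ENNReal.one_lt_top⟩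
  have hlim := ae_lim E hE hEU
  have hJc := continuous_J
  have hfc : ∀ n, Continuous (fd E (dl n) (dl_pos n)) := by
    intro n
    have hgd := contDiff_conv _ _ (int_ind E hE hEU).locallyIntegrable
      (eta_contDiff (dl n) (dl_pos n)) (eta_supp (dl n) (dl_pos n))
    have hgc := hgd.continuous
    have hT : Continuous (T d (dl n)) := by
      unfold T
      fun_prop
    unfold fd
    exact continuous_const.add (continuous_const.mul (hgc.comp hT))
  have hf01 : ∀ n x, 0 ≤ fd E (dl n) (dl_pos n) x ∧ fd E (dl n) (dl_pos n) x ≤ 1 := by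
    intro n x
    have hb := g_bounds E hE hEU (dl n) (dl_pos n) (T d (dl n) x)
    have h1 := dl_pos n
    have h2 := dl_lt n
    have h3 := mul_nonneg (by linarith : 0 ≤ 1 - 2 * dl n) hb.1
    have h4 := mul_le_mul_of_nonneg_left hb.2 (by linarith : 0 ≤ 1 - 2 * dl n)
    unfold fd
    constructor <;> linarith
  have hlim1 : Tendsto (fun n => ∫ x, fd E (dl n) (dl_pos n) x ∂μ) atTop (𝓝 (∫ x, u x ∂μ)) := by
    apply tendsto_integral_of_dominated_convergence (fun _ => (1:ℝ))
    · exact fun n => (hfc n).aestronglyMeasurable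
    · exact integrable_const _
    · intro n
      refine Eventually.of_forall fun x => ?_
      rw [Real.norm_eq_abs, abs_of_nonneg (hf01 n x).1]
      exact (hf01 n x).2
    · exact hlim
  have hlim2 : Tendsto (fun n => ∫ x, J (fd E (dl n) (dl_pos n) x) ∂μ) atTop
      (𝓝 (∫ x, J (u x) ∂μ)) := by
    apply tendsto_integral_of_dominated_convergence (fun _ => (1:ℝ))
    · exact fun n => (hJc.comp (hfc n)).aestronglyMeasurable
    · exact integrable_const _
    · intro n
      refine Eventually.of_forall fun x => ?_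
      have h5 := J_nonneg (fd E (dl n) (dl_pos n) x)
      rw [Real.norm_eq_abs, abs_of_nonneg h5]
      exact J_le_two _ (hf01 n x).1 (hf01 n x).2
    · filter_upwards [hlim] with x hx
      exact (hJc.tendsto _).comp hx
  have hu1 : ∫ x, u x ∂μ = t := by
    rw [hu, integral_indicator hE, hμ, Measure.restrict_restrict hE,
      inter_eq_self_of_subset_left (hEU.trans U_sub), setIntegral_const, Measure.real, ht,
      ENNReal.toReal_ofReal ht0]
    simp
  have hu2 : ∫ x, J (u x) ∂μ = t := by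
    have : ∀ x, J (u x) = u x := by
      intro x
      by_cases hx : x ∈ E
      · simp only [hu, indicator_of_mem hx]
        exact J_one
      · simp only [hu, indicator_of_notMem hx]
        exact J_zero
    simp only [this]
    exact hu1
  rw [hu1] at hlim1
  rw [hu2] at hlim2
  have hlim3 : Tendsto (fun n => (1 - 4 * dl n) ^ d * (J (∫ x, fd E (dl n) (dl_pos n) x ∂μ) -
        ∫ x, J (fd E (dl n) (dl_pos n) x) ∂μ)) atTop (𝓝 ((1 - 4 * 0) ^ d * (J t - t))) := by
    apply Tendsto.mul
    · exact (tendsto_const_nhds.sub (dl_tendsto.const_mul 4)).pow d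
    · exact ((hJc.tendsto t).comp hlim1).sub hlim2
  simp only [mul_zero, sub_zero, one_pow, one_mul] at hlim3
  refine le_of_tendsto hlim3 (Eventually.of_forall fun n => ?_)
  refine (main_ineq E hE hEU (dl n) (dl_pos n) (dl_lt n)).trans ?_
  obtain ⟨φ, h1, h2, h3, h4, h5⟩ := testfield E hE hEU (dl n) (dl_pos n) (dl_lt n)
  rw [← h5]
  have h6 := hC φ ⟨h1, h2, h3, h4⟩
  refine le_trans (le_of_eq ?_) h6
  congr 1
  funext x
  unfold dv
  refine Finset.sum_congr rfl fun i _ => ?_
  have hd : DifferentiableAt ℝ φ x := h1.differentiable (by norm_num) x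
  have hd2 : HasFDerivAt (fun y => φ y i)
      ((ContinuousLinearMap.proj i).comp (fderiv ℝ φ x)) x :=
    ((ContinuousLinearMap.proj (R := ℝ) (φ := fun _ : Fin d => ℝ) i).hasFDerivAt).comp x
      hd.hasFDerivAt
  rw [hd2.fderiv]
  rfl

/-- **Lower bound.** A set of volume `v` in the open cube has perimeter at least
`v (√(1 - log v) - 1)`. -/
theorem lower_bound {d : ℕ} (v C : ℝ) (hv : 0 < v) (_hv1 : v < 1) (h : Ach d v C) :
    v * (√(1 - Real.log v) - 1) ≤ C := by
  obtain ⟨E, hE, hEU, hvol, hC⟩ := h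
  have := lower E hE hEU v C hvol hv.le hC
  rw [J_eq v hv.le] at this
  linarith

end Pool.Agent.H38K1
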