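import Pool.Agent.Helper38K1.JLog
import Pool.Agent.H48R3.CP.Limit

/-!
# The one dimensional functional inequality for `J x = x √(1 - log x)`
-/

set_option autoImplicit false

namespace Pool.Agent.H38K1

open Set Filter Topology MeasureTheory
open Pool.Agent.H48R3.CP (minkowski)

theorem oneD (f f' : ℝ → ℝ) (hf : ∀ x, HasDerivAt f (f' x) x) (hf' : Continuous f')
    (h0 : ∀ x ∈ Icc (0:ℝ) 1, 0 < f x) (h1 : ∀ x ∈ Icc (0:ℝ) 1, f x < 1) :
    J (∫ x in (0:ℝ)..1, f x) ≤ ∫ x in (0:ℝ)..1, √(J (f x) ^ 2 + f' x ^ 2) := by
  have hfc : Continuous f := continuous_iff_continuousAt.2 fun x => (hf x).continuousAt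
  have h01 : (0:ℝ) ≤ 1 := by norm_num
  have hne : (Icc (0:ℝ) 1).Nonempty := nonempty_Icc.2 h01
  obtain ⟨p, hp, hpmin⟩ := isCompact_Icc.exists_isMinOn hne hfc.continuousOn
  obtain ⟨q, hq, hqmax⟩ := isCompact_Icc.exists_isMaxOn hne hfc.continuousOn
  have hmem : ∀ x ∈ Icc (0:ℝ) 1, f x ∈ Icc (f p) (f q) := fun x hx => ⟨hpmin hx, hqmax hx⟩
  have hJ := continuous_J
  rcases (hmem q hq).1.eq_or_lt with hpq | hab
  · -- constant case
    have hconst : ∀ x ∈ uIcc (0:ℝ) 1, f x = f p := by
      intro x hx
      rw [uIcc_of_le h01] at hx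
      have := hmem x hx
      rw [← hpq] at this
      exact le_antisymm this.2 this.1
    have e1 : (∫ x in (0:ℝ)..1, f x) = f p := by
      rw [intervalIntegral.integral_congr (g := fun _ => f p) hconst]
      simp
    rw [e1]
    have e2 : (∫ x in (0:ℝ)..1, J (f p)) = J (f p) := by simp
    rw [← e2]
    apply intervalIntegral.integral_mono_on h01
    · exact continuous_const.intervalIntegrable _ _
    · apply Continuous.intervalIntegrable; fun_prop
    · intro x hx
      have : f x = f p := hconst x (by rw [uIcc_of_le h01]; exact hx)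
      rw [this]
      apply Real.le_sqrt_of_sq_le
      nlinarith [sq_nonneg (f' x)]
  set a := f p with haf
  set b := f q with hbf
  have ha : 0 < a := h0 p hp
  have hb : b < 1 := h1 q hq
  have hba : 0 < b - a := by linarith
  set m := ∫ x in (0:ℝ)..1, f x with hmdef
  have hm : m ∈ Icc a b := by
    constructor
    · have : (∫ x in (0:ℝ)..1, a) ≤ m := intervalIntegral.integral_mono_on h01
        (continuous_const.intervalIntegrable _ _) (hfc.intervalIntegrable _ _)
        (fun x hx => (hmem x hx).1)
      simpa using this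
    · have : m ≤ (∫ x in (0:ℝ)..1, b) := intervalIntegral.integral_mono_on h01
        (hfc.intervalIntegrable _ _) (continuous_const.intervalIntegrable _ _)
        (fun x hx => (hmem x hx).2)
      simpa using this
  -- the chord
  have hchord : ∀ y ∈ Icc a b, J a + (J b - J a) / (b - a) * (y - a) ≤ J y := by
    intro y hy
    have h2 := J_concave a b ((b - y) / (b - a)) ((y - a) / (b - a)) ha.le (ha.le.trans hab.le)
      (by linarith) hb.le (div_nonneg (by linarith [hy.2]) hba.le)
      (div_nonneg (by linarith [hy.1]) hba.le) (by field_simp; ring)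
    have e3 : (b - y) / (b - a) * a + (y - a) / (b - a) * b = y := by field_simp; ring
    rw [e3] at h2
    refine le_trans (le_of_eq ?_) h2
    field_simp
    ring
  have hJint : J a + (J b - J a) / (b - a) * (m - a) ≤ ∫ x in (0:ℝ)..1, J (f x) := by
    have e4 : (∫ x in (0:ℝ)..1, (J a + (J b - J a) / (b - a) * (f x - a))) =
        J a + (J b - J a) / (b - a) * (m - a) := by
      rw [intervalIntegral.integral_add, intervalIntegral.integral_const_mul,
        intervalIntegral.integral_sub]
      · simp [hmdef]
      · exact hfc.intervalIntegrable _ _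
      · exact continuous_const.intervalIntegrable _ _
      · exact continuous_const.intervalIntegrable _ _
      · apply Continuous.intervalIntegrable; fun_prop
    rw [← e4]
    apply intervalIntegral.integral_mono_on h01
    · apply Continuous.intervalIntegrable; fun_prop
    · exact (hJ.comp hfc).intervalIntegrable _ _
    · intro x hx
      exact hchord _ (hmem x hx)
  -- the variation
  have hvar : b - a ≤ ∫ x in (0:ℝ)..1, |f' x| := by
    have h2 : (∫ x in p..q, f' x) = b - a :=
      intervalIntegral.integral_eq_sub_of_hasDerivAt (fun x _ => hf x)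
        (hf'.intervalIntegrable _ _)
    rw [← h2]
    refine (le_abs_self _).trans ?_
    rw [← Real.norm_eq_abs]
    refine (intervalIntegral.norm_integral_le_integral_norm_uIoc).trans ?_
    rw [intervalIntegral.integral_of_le h01]
    simp only [Real.norm_eq_abs]
    apply setIntegral_mono_set
    · exact (hf'.abs.continuousOn.integrableOn_Icc).mono_set Ioc_subset_Icc_self
    · exact Eventually.of_forall fun x => abs_nonneg _
    · apply LE.le.eventuallyLE
      intro x hx
      rw [uIoc, mem_Ioc] at hx
      constructor
      · exact lt_of_le_of_lt (le_min hp.1 hq.1) hx.1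
      · exact hx.2.trans (max_le hp.2 hq.2)
  -- Minkowski
  have hmk := minkowski (volume.restrict (Ioc (0:ℝ) 1)) (fun x => J (f x)) (fun x => |f' x|)
    (((hJ.comp hfc).continuousOn.integrableOn_Icc).mono_set Ioc_subset_Icc_self)
    ((hf'.abs.continuousOn.integrableOn_Icc).mono_set Ioc_subset_Icc_self)
    (((show Continuous (fun x => √(J (f x) ^ 2 + |f' x| ^ 2)) by fun_prop).continuousOn.integrableOn_Icc).mono_set
      Ioc_subset_Icc_self)
  simp only [sq_abs] at hmk
  rw [← intervalIntegral.integral_of_le h01, ← intervalIntegral.integral_of_le h01,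
    ← intervalIntegral.integral_of_le h01] at hmk
  refine le_trans ?_ hmk
  apply Real.le_sqrt_of_sq_le
  -- the two point inequality
  have h2 := two_pt a b ((b - m) / (b - a)) ((m - a) / (b - a)) ha hab.le hb.le
    (div_nonneg (by linarith [hm.2]) hba.le)
      (div_nonneg (by linarith [hm.1]) hba.le) (by field_simp; ring)
  have e3 : (b - m) / (b - a) * a + (m - a) / (b - a) * b = m := by field_simp; ring
  have e5 : (b - m) / (b - a) * J a + (m - a) / (b - a) * J b =
      J a + (J b - J a) / (b - a) * (m - a) := by field_simp; ring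
  rw [e3, e5] at h2
  refine h2.trans ?_
  have h3 : 0 ≤ J a + (J b - J a) / (b - a) * (m - a) := by
    have := div_nonneg (sub_nonneg.2 (J_mono a b ha.le hab.le hb.le)) hba.le
    have h4 := mul_nonneg this (by linarith [hm.1] : 0 ≤ m - a)
    have := J_nonneg a
    linarith
  have h5 := pow_le_pow_left₀ h3 hJint 2
  have h6 := pow_le_pow_left₀ hba.le hvar 2
  linarith

end Pool.Agent.H38K1
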